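import Mathlib

/-!
# Extension of homomorphisms along cyclic quotients and products of conjugates
-/

set_option autoImplicit false

open scoped BigOperators Classical

noncomputable section

namespace Pool.Agent.K3h25.IN

/-- extension of a homomorphism from a normal subgroup with cyclic quotient -/
theorem ext_cyclic {R B : Type} [Group R] [Group B] (N : Subgroup R) (g : R) (q : ℕ)
    (hN : N.Normal) (hc : ∀ r : R, ∃ i : ℕ, ∃ n ∈ N, r = g ^ i * n)
    (hd : ∀ i : ℤ, g ^ i ∈ N → (q : ℤ) ∣ i) (hgq : g ^ q ∈ N)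
    (f : N →* B) (T : B)
    (hT : ∀ n : N, T * f n * T⁻¹ = f ⟨g * n * g⁻¹, hN.conj_mem n n.2 g⟩)
    (hTq : T ^ q = f ⟨g ^ q, hgq⟩) :
    ∃ F : R →* B, (∀ n : N, F n = f n) ∧ F g = T := by
  have wd : ∀ (i j : ℕ) (n m : N), g ^ i * (n : R) = g ^ j * (m : R) →
      T ^ i * f n = T ^ j * f m := by
    intro i j n m h
    have h1 : g ^ ((i : ℤ) - j) = (g ^ q) ^ (((i : ℤ) - j) / q) := by
      have h2 : g ^ ((i : ℤ) - j) ∈ N := by
        have h3 : g ^ ((i : ℤ) - j) = g ^ (-(j : ℤ)) * ((g ^ j * (m : R)) * (n : R)⁻¹) := by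
          rw [← h, mul_assoc (g ^ i), mul_inv_cancel, mul_one, ← zpow_natCast, ← zpow_add]
          congr 1
          ring
        have h4 : g ^ (-(j : ℤ)) * ((g ^ j * (m : R)) * (n : R)⁻¹) = m * (n : R)⁻¹ := by
          rw [zpow_neg, zpow_natCast]
          group
        rw [h3, h4]
        exact N.mul_mem m.2 (N.inv_mem n.2)
      obtain ⟨k, hk⟩ := hd _ h2
      rcases Nat.eq_zero_or_pos q with h0 | h0
      · subst h0
        have : (i : ℤ) - j = 0 := by simpa using hk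
        rw [this]
        simp
      · have h5 : ((i : ℤ) - j) / q = k := by
          rw [hk]
          exact Int.mul_ediv_cancel_left _ (by exact_mod_cast h0.ne')
        rw [h5, ← zpow_natCast, ← zpow_mul, ← hk]
    have h1' : T ^ ((i : ℤ) - j) = (T ^ q) ^ (((i : ℤ) - j) / q) := by
      have h2 : g ^ ((i : ℤ) - j) ∈ N := by
        rw [h1]
        exact N.zpow_mem hgq _
      obtain ⟨k, hk⟩ := hd _ h2
      rcases Nat.eq_zero_or_pos q with h0 | h0
      · subst h0
        have : (i : ℤ) - j = 0 := by simpa using hk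
        rw [this]
        simp
      · have h5 : ((i : ℤ) - j) / q = k := by
          rw [hk]
          exact Int.mul_ediv_cancel_left _ (by exact_mod_cast h0.ne')
        rw [h5, ← zpow_natCast, ← zpow_mul, ← hk]
    have h6 : (⟨g ^ q, hgq⟩ : N) ^ (((i : ℤ) - j) / q) = m * n⁻¹ := by
      ext
      rw [Subgroup.coe_zpow, ← h1, Subgroup.coe_mul, Subgroup.coe_inv]
      have h7 : (n : R) = g ^ (-(i : ℤ)) * (g ^ j * (m : R)) := by
        rw [← h, zpow_neg, zpow_natCast]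
        group
      have h8 : (m : R) * (n : R)⁻¹ = (m : R) * (g ^ (-(i : ℤ)) * (g ^ j * (m : R)))⁻¹ := by
        rw [← h7]
      rw [h8]
      rw [mul_inv_rev, mul_inv_rev, zpow_neg, inv_inv, zpow_natCast, sub_eq_neg_add, zpow_add,
        zpow_neg, zpow_natCast, zpow_natCast]
      group
    have h9 : T ^ ((i : ℤ) - j) = f m * (f n)⁻¹ := by
      rw [h1', hTq, ← map_zpow, h6, map_mul, map_inv]
    have h10 : T ^ i = T ^ j * (f m * (f n)⁻¹) := by
      rw [← h9, ← zpow_natCast, ← zpow_natCast, ← zpow_add]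
      congr 1
      ring
    rw [h10]
    group
  -- the function
  choose a b hb hab using hc
  have conj : ∀ (j : ℕ) (n : N), f ⟨(g ^ j)⁻¹ * n * g ^ j, by
      have := hN.conj_mem n n.2 (g ^ j)⁻¹
      rwa [inv_inv] at this⟩ = (T ^ j)⁻¹ * f n * T ^ j := by
    intro j
    induction j with
    | zero =>
      intro n
      simp
    | succ j ih =>
      intro n
      have h1 := hT ⟨(g ^ (j + 1))⁻¹ * n * g ^ (j + 1), by
        have := hN.conj_mem n n.2 (g ^ (j + 1))⁻¹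
        rwa [inv_inv] at this⟩
      have h2 : (⟨g * ((g ^ (j + 1))⁻¹ * n * g ^ (j + 1)) * g⁻¹, by
          have h3 := hN.conj_mem n n.2 (g ^ (j + 1))⁻¹
          rw [inv_inv] at h3
          exact hN.conj_mem _ h3 g⟩ : N) = ⟨(g ^ j)⁻¹ * n * g ^ j, by
          have := hN.conj_mem n n.2 (g ^ j)⁻¹
          rwa [inv_inv] at this⟩ := by
        apply Subtype.ext
        change g * ((g ^ (j + 1))⁻¹ * (n : R) * g ^ (j + 1)) * g⁻¹ = (g ^ j)⁻¹ * n * g ^ j
        rw [pow_succ]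
        group
      have h4 : f ⟨(g ^ (j + 1))⁻¹ * n * g ^ (j + 1), by
        have := hN.conj_mem n n.2 (g ^ (j + 1))⁻¹
        rwa [inv_inv] at this⟩ = T⁻¹ * (f ⟨(g ^ j)⁻¹ * n * g ^ j, by
          have := hN.conj_mem n n.2 (g ^ j)⁻¹
          rwa [inv_inv] at this⟩) * T := by
        rw [← h2]
        erw [← h1]
        group
      rw [h4, ih n, pow_succ]
      group
  let F : R → B := fun r => T ^ a r * f ⟨b r, hb r⟩
  have hF : ∀ (i : ℕ) (n : N), F (g ^ i * (n : R)) = T ^ i * f n := by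
    intro i n
    exact wd _ _ _ _ (hab (g ^ i * (n : R))).symm
  have hmul : ∀ r s : R, F (r * s) = F r * F s := by
    intro r s
    have h1 : r * s = g ^ (a r + a s) * ((⟨(g ^ a s)⁻¹ * b r * g ^ a s, by
        have := hN.conj_mem (b r) (hb r) (g ^ a s)⁻¹
        rwa [inv_inv] at this⟩ * ⟨b s, hb s⟩ : N) : R) := by
      conv_lhs => rw [hab r, hab s]
      change g ^ a r * b r * (g ^ a s * b s) = g ^ (a r + a s) * ((g ^ a s)⁻¹ * b r * g ^ a s * b s)
      rw [pow_add]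
      group
    rw [h1, hF, map_mul]
    have h2 := conj (a s) ⟨b r, hb r⟩
    rw [h2, pow_add]
    change _ = T ^ a r * f ⟨b r, hb r⟩ * (T ^ a s * f ⟨b s, hb s⟩)
    group
  refine ⟨MonoidHom.mk' F hmul, ?_, ?_⟩
  · intro n
    have h := hF 0 n
    simpa using h
  · have h := hF 1 1
    simpa using h

/-- cosets of a normal subgroup of prime index -/
theorem index_prime {R : Type} [Group R] (N : Subgroup R) (g : R) (q : ℕ) [hq : Fact q.Prime]
    (hN : N.Normal) (hi : N.index = q) (hg : g ∉ N) :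
    (∀ r : R, ∃ i : ℕ, i < q ∧ ∃ n ∈ N, r = g ^ i * n) ∧
    (∀ i : ℤ, g ^ i ∈ N → (q : ℤ) ∣ i) ∧ g ^ q ∈ N := by
  have hcard : Nat.card (R ⧸ N) = q := hi
  have h1 : (QuotientGroup.mk g : R ⧸ N) ≠ 1 := by
    intro h
    exact hg ((QuotientGroup.eq_one_iff g).mp h)
  have h2 : orderOf (QuotientGroup.mk g : R ⧸ N) = q := by
    have h3 := orderOf_dvd_natCard (QuotientGroup.mk g : R ⧸ N)
    rw [hcard] at h3
    rcases (Nat.dvd_prime hq.out).mp h3 with h4 | h4
    · exact absurd (orderOf_eq_one_iff.mp h4) h1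
    · exact h4
  refine ⟨?_, ?_, ?_⟩
  · intro r
    obtain ⟨i, hi⟩ := (mem_powers_of_prime_card (G := R ⧸ N) hcard (g' := QuotientGroup.mk r) h1)
    refine ⟨i % q, Nat.mod_lt _ hq.out.pos, (g ^ (i % q))⁻¹ * r, ?_, by group⟩
    have h5 : (QuotientGroup.mk (g ^ (i % q)) : R ⧸ N) = QuotientGroup.mk r := by
      have h6 : (QuotientGroup.mk (g ^ (i % q)) : R ⧸ N) = (QuotientGroup.mk g : R ⧸ N) ^ (i % q) :=
        rfl
      rw [h6, ← h2, pow_mod_orderOf]
      exact hi
    exact QuotientGroup.eq.mp h5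
  · intro i h
    rw [← h2, orderOf_dvd_iff_zpow_eq_one]
    exact (QuotientGroup.eq_one_iff (g ^ i)).mpr h
  · have h7 : (QuotientGroup.mk (g ^ q) : R ⧸ N) = 1 := by
      have h6 : (QuotientGroup.mk (g ^ q) : R ⧸ N) = (QuotientGroup.mk g : R ⧸ N) ^ q := rfl
      rw [h6, ← h2, pow_orderOf_eq_one]
    exact (QuotientGroup.eq_one_iff _).mp h7

section prods

variable {N A B : Type} [Group N] [Monoid A] [Monoid B]

/-- conjugate of `Φ b` under `T ^ i` -/
def cj (Φ : B →* A) (T : Aˣ) (i : ℕ) (b : B) : A := ((T ^ i : Aˣ) : A) * Φ b * (((T ^ i)⁻¹ : Aˣ) : A)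

theorem cj_mul (Φ : B →* A) (T : Aˣ) (i : ℕ) (a b : B) :
    cj Φ T i (a * b) = cj Φ T i a * cj Φ T i b := by
  unfold cj
  rw [map_mul]
  have h : (((T ^ i)⁻¹ : Aˣ) : A) * ((T ^ i : Aˣ) : A) = 1 := by
    rw [← Units.val_mul, inv_mul_cancel, Units.val_one]
  calc ((T ^ i : Aˣ) : A) * (Φ a * Φ b) * (((T ^ i)⁻¹ : Aˣ) : A)
      = ((T ^ i : Aˣ) : A) * Φ a * 1 * (Φ b * (((T ^ i)⁻¹ : Aˣ) : A)) := by
        rw [mul_one]; simp only [mul_assoc]
    _ = _ := by rw [← h]; simp only [mul_assoc]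

theorem cj_one (Φ : B →* A) (T : Aˣ) (i : ℕ) : cj Φ T i 1 = 1 := by
  unfold cj
  rw [map_one, mul_one, ← Units.val_mul, mul_inv_cancel, Units.val_one]

theorem cj_succ (Φ : B →* A) (T : Aˣ) (i : ℕ) (b : B) :
    (T : A) * cj Φ T i b * ((T⁻¹ : Aˣ) : A) = cj Φ T (i + 1) b := by
  unfold cj
  have h1 : ((T ^ (i + 1) : Aˣ) : A) = (T : A) * ((T ^ i : Aˣ) : A) := by
    rw [pow_succ', Units.val_mul]
  have h2 : (((T ^ (i + 1))⁻¹ : Aˣ) : A) = (((T ^ i)⁻¹ : Aˣ) : A) * ((T⁻¹ : Aˣ) : A) := by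
    rw [pow_succ', mul_inv_rev, Units.val_mul]
  rw [h1, h2]
  simp only [mul_assoc]

theorem cj_add (Φ : B →* A) (T : Aˣ) (i j : ℕ) (b : B) :
    ((T ^ i : Aˣ) : A) * cj Φ T j b * (((T ^ i)⁻¹ : Aˣ) : A) = cj Φ T (i + j) b := by
  unfold cj
  have h1 : ((T ^ (i + j) : Aˣ) : A) = ((T ^ i : Aˣ) : A) * ((T ^ j : Aˣ) : A) := by
    rw [pow_add, Units.val_mul]
  have h2 : (((T ^ (i + j))⁻¹ : Aˣ) : A) = (((T ^ j)⁻¹ : Aˣ) : A) * (((T ^ i)⁻¹ : Aˣ) : A) := by
    rw [pow_add, mul_inv_rev, Units.val_mul]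
  rw [h1, h2]
  simp only [mul_assoc]

theorem conj_commute (U : Aˣ) {x y : A} (h : Commute x y) :
    Commute ((U : A) * x * ((U⁻¹ : Aˣ) : A)) ((U : A) * y * ((U⁻¹ : Aˣ) : A)) := by
  have h1 : ((U⁻¹ : Aˣ) : A) * (U : A) = 1 := by
    rw [← Units.val_mul, inv_mul_cancel, Units.val_one]
  unfold Commute SemiconjBy at h ⊢
  calc (U : A) * x * ((U⁻¹ : Aˣ) : A) * ((U : A) * y * ((U⁻¹ : Aˣ) : A))
      = (U : A) * x * (((U⁻¹ : Aˣ) : A) * (U : A)) * y * ((U⁻¹ : Aˣ) : A) := by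
        simp only [mul_assoc]
    _ = (U : A) * (x * y) * ((U⁻¹ : Aˣ) : A) := by rw [h1]; simp only [mul_assoc, one_mul]
    _ = (U : A) * (y * x) * ((U⁻¹ : Aˣ) : A) := by rw [h]
    _ = (U : A) * y * (((U⁻¹ : Aˣ) : A) * (U : A)) * x * ((U⁻¹ : Aˣ) : A) := by
        rw [h1]; simp only [mul_assoc, one_mul]
    _ = _ := by simp only [mul_assoc]

theorem cj_comm (Φ : B →* A) (T : Aˣ) (q : ℕ)
    (hcom : ∀ i, 0 < i → i < q → ∀ a b : B, Commute (Φ a) (cj Φ T i b))
    (i j : ℕ) (hi : i < q) (hj : j < q) (hij : i ≠ j) (a b : B) :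
    Commute (cj Φ T i a) (cj Φ T j b) := by
  have key : ∀ i j : ℕ, i < j → j < q → ∀ a b : B, Commute (cj Φ T i a) (cj Φ T j b) := by
    intro i j hij hj a b
    have h1 := conj_commute (T ^ i) (hcom (j - i) (by omega) (by omega) a b)
    rw [cj_add, show i + (j - i) = j by omega] at h1
    exact h1
  rcases lt_or_gt_of_ne hij with h | h
  · exact key i j h hj a b
  · exact (key j i h hi b a).symm

/-- the product of the conjugates -/
def PP (Φ : B →* A) (T : Aˣ) (c : MulAut N) (w : N →* B) (n : ℕ) (y : N) : A :=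
  ((List.range n).map fun i => cj Φ T i (w ((c⁻¹ ^ i) y))).prod

theorem PP_succ (Φ : B →* A) (T : Aˣ) (c : MulAut N) (w : N →* B) (n : ℕ) (y : N) :
    PP Φ T c w (n + 1) y = PP Φ T c w n y * cj Φ T n (w ((c⁻¹ ^ n) y)) := by
  unfold PP
  rw [List.prod_range_succ]

/-- a homomorphism which implements all conjugates -/
theorem exists_prod (Φ : B →* A) (T : Aˣ) (c : MulAut N) (w : N →* B) (q : ℕ) (hq : 0 < q)
    (hcom : ∀ i, 0 < i → i < q → ∀ a b : B, Commute (Φ a) (cj Φ T i b))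
    (htw : ∀ y : N, cj Φ T q (w ((c⁻¹ ^ q) y)) = Φ (w y)) :
    ∃ W : N →* A, (∀ y, (T : A) * W y * ((T⁻¹ : Aˣ) : A) = W (c y)) ∧
      (∀ j < q, ∀ (b b' : B) (y : N), w ((c⁻¹ ^ j) y) * b = b' * w ((c⁻¹ ^ j) y) →
        W y * cj Φ T j b = cj Φ T j b' * W y) ∧
      ∀ y, (∀ i, w ((c⁻¹ ^ i) y) = 1) → W y = 1 := by
  have comP : ∀ n j, n ≤ j → j < q → ∀ (b : B) (y : N),
      Commute (PP Φ T c w n y) (cj Φ T j b) := by
    intro n j hn hj b y
    unfold PP
    refine Commute.list_prod_left _ _ ?_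
    intro x hx
    rw [List.mem_map] at hx
    obtain ⟨i, hi, rfl⟩ := hx
    rw [List.mem_range] at hi
    exact cj_comm Φ T q hcom i j (by omega) hj (by omega) _ _
  have hmul : ∀ n, n ≤ q → ∀ y y' : N, PP Φ T c w n (y * y') = PP Φ T c w n y * PP Φ T c w n y' := by
    intro n
    induction n with
    | zero => intro _ y y'; simp [PP]
    | succ n ih =>
      intro hn y y'
      rw [PP_succ, PP_succ, PP_succ, ih (by omega), map_mul, map_mul, cj_mul]
      have h := comP n n le_rfl (by omega) (w ((c⁻¹ ^ n) y)) y'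
      unfold Commute SemiconjBy at h
      calc PP Φ T c w n y * PP Φ T c w n y' *
            (cj Φ T n (w ((c⁻¹ ^ n) y)) * cj Φ T n (w ((c⁻¹ ^ n) y')))
          = PP Φ T c w n y * (PP Φ T c w n y' * cj Φ T n (w ((c⁻¹ ^ n) y))) *
              cj Φ T n (w ((c⁻¹ ^ n) y')) := by simp only [mul_assoc]
        _ = _ := by rw [h]; simp only [mul_assoc]
  have hone : PP Φ T c w q 1 = 1 := by
    unfold PP
    refine List.prod_eq_one ?_
    intro x hx
    rw [List.mem_map] at hx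
    obtain ⟨i, _, rfl⟩ := hx
    rw [map_one, map_one, cj_one]
  refine ⟨{ toFun := PP Φ T c w q, map_one' := hone, map_mul' := hmul q le_rfl }, ?_, ?_, ?_⟩
  · intro y
    change (T : A) * PP Φ T c w q y * ((T⁻¹ : Aˣ) : A) = PP Φ T c w q (c y)
    have h1 : ∀ n, (T : A) * PP Φ T c w n y * ((T⁻¹ : Aˣ) : A) =
        ((List.range n).map fun i => cj Φ T (i + 1) (w ((c⁻¹ ^ (i + 1)) (c y)))).prod := by
      intro n
      induction n with
      | zero =>
        simp [PP]
      | succ n ih =>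
        rw [List.prod_range_succ, ← ih, PP_succ]
        have h2 : cj Φ T (n + 1) (w ((c⁻¹ ^ (n + 1)) (c y))) =
            (T : A) * cj Φ T n (w ((c⁻¹ ^ n) y)) * ((T⁻¹ : Aˣ) : A) := by
          rw [cj_succ]
          congr 2
          rw [pow_succ, MulAut.mul_apply]
          congr 1
          exact MulAut.inv_apply_self N c y
        rw [h2]
        have h3 : ((T⁻¹ : Aˣ) : A) * (T : A) = 1 := by
          rw [← Units.val_mul, inv_mul_cancel, Units.val_one]
        calc (T : A) * (PP Φ T c w n y * cj Φ T n (w ((c⁻¹ ^ n) y))) * ((T⁻¹ : Aˣ) : A)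
            = (T : A) * PP Φ T c w n y * 1 * (cj Φ T n (w ((c⁻¹ ^ n) y)) * ((T⁻¹ : Aˣ) : A)) := by
              rw [mul_one]; simp only [mul_assoc]
          _ = _ := by rw [← h3]; simp only [mul_assoc]
    rw [h1]
    obtain ⟨m, rfl⟩ : ∃ m, q = m + 1 := ⟨q - 1, by omega⟩
    unfold PP
    rw [List.prod_range_succ, List.prod_range_succ']
    have h4 : cj Φ T (m + 1) (w ((c⁻¹ ^ (m + 1)) (c y))) = cj Φ T 0 (w ((c⁻¹ ^ 0) (c y))) := by
      rw [htw (c y)]
      unfold cj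
      simp
    rw [h4]
    refine (Commute.list_prod_left _ _ ?_)
    intro x hx
    rw [List.mem_map] at hx
    obtain ⟨i, hi, rfl⟩ := hx
    rw [List.mem_range] at hi
    exact cj_comm Φ T (m + 1) hcom (i + 1) 0 (by omega) (by omega) (by omega) _ _
  · intro j hj b b' y h
    change PP Φ T c w q y * cj Φ T j b = cj Φ T j b' * PP Φ T c w q y
    have key : ∀ n, j < n → n ≤ q → PP Φ T c w n y * cj Φ T j b = cj Φ T j b' * PP Φ T c w n y := by
      intro n
      induction n with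
      | zero => intro h0; omega
      | succ n ih =>
        intro h1 h2
        rw [PP_succ]
        rcases Nat.lt_or_ge j n with h3 | h3
        · have h4 := cj_comm Φ T q hcom n j (by omega) hj (by omega) (w ((c⁻¹ ^ n) y)) b
          unfold Commute SemiconjBy at h4
          rw [mul_assoc, h4, ← mul_assoc, ih h3 (by omega), mul_assoc]
        · have h5 : j = n := by omega
          subst h5
          rw [mul_assoc, ← cj_mul, h, cj_mul, ← mul_assoc,
            (comP j j le_rfl hj b' y).eq, mul_assoc]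
    exact key q hj le_rfl
  · intro y h
    change PP Φ T c w q y = 1
    unfold PP
    refine List.prod_eq_one ?_
    intro x hx
    rw [List.mem_map] at hx
    obtain ⟨i, _, rfl⟩ := hx
    rw [h i, cj_one]

end prods

end Pool.Agent.K3h25.IN
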