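import Pool.Agent.K3h83.IN.Stm3
import Pool.Agent.K3h25.IN.Ext

/-!
# Gluing of the conjugates of a subgroup
-/

set_option autoImplicit false

open scoped BigOperators Classical

noncomputable section

namespace Pool.Agent.K3h25.IN

open Pool.Agent.K3h83.IN

theorem t_T12 (h6 : T6) (h7 : T7) : T12 := by
  intro q _ M X _ _ _ _ φ R R₁ g hcen hsy hle hg hrel hnorm hgn M₀ hnd hne hst hcomm hsup hlift
    V _ _ _ σ hirr hfaith
  have hq : q.Prime := Fact.out
  -- central elements act by scalars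
  have hscal : ∀ z ∈ Subgroup.center M, ∃ c : ℂ, ∀ v, σ z v = c • v := by
    intro z hz
    obtain ⟨c, hc⟩ := Pool.Agent.H254R3.IN.schur σ hirr (σ z) (by
      intro h v
      rw [← Module.End.mul_apply, ← Module.End.mul_apply, ← map_mul, ← map_mul,
        (Subgroup.mem_center_iff.mp hz h)])
    refine ⟨c, fun v => ?_⟩
    rw [hc]
    rfl
  -- the operator which implements `g`
  have hirr' : Representation.IsIrreducible (k := ℂ) (G := M) (V := V)
      (σ.comp (φ g).toMonoidHom) :=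
    (Pool.Agent.Q90.WR.compSub (φ g) σ).isSimpleOrder_iff.1 hirr
  obtain ⟨T₀, hT₀⟩ := h7 q M hsy V V σ (σ.comp (φ g).toMonoidHom) hirr hirr' hfaith (by
    intro z hz
    obtain ⟨c, hc⟩ := hscal z hz
    refine ⟨c, hc, fun v => ?_⟩
    change σ (φ g z) v = c • v
    rw [hcen g z hz, hc])
  let U : (Module.End ℂ V)ˣ :=
    ⟨T₀.toLinearMap, T₀.symm.toLinearMap, by ext v; simp, by ext v; simp⟩
  have hU : ∀ m : M, (U : Module.End ℂ V) * σ m = σ (φ g m) * (U : Module.End ℂ V) := by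
    intro m
    ext v
    exact hT₀ m v
  have hUi : ∀ (i : ℕ) (m : M), ((U ^ i : (Module.End ℂ V)ˣ) : Module.End ℂ V) * σ m =
      σ (φ (g ^ i) m) * ((U ^ i : (Module.End ℂ V)ˣ) : Module.End ℂ V) := by
    intro i
    induction i with
    | zero =>
      intro m
      simp
    | succ i ih =>
      intro m
      rw [pow_succ', Units.val_mul, mul_assoc, ih m, ← mul_assoc, hU, mul_assoc, pow_succ', map_mul,
        MulAut.mul_apply]
  have hUc : ∀ (i : ℕ) (m : M), ((U ^ i : (Module.End ℂ V)ˣ) : Module.End ℂ V) * σ m *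
      (((U ^ i)⁻¹ : (Module.End ℂ V)ˣ) : Module.End ℂ V) = σ (φ (g ^ i) m) := by
    intro i m
    rw [hUi i m, mul_assoc, ← Units.val_mul, mul_inv_cancel, Units.val_one, mul_one]
  obtain ⟨V₀, _, _, _, σ₀, Φ, hirr₀, hfaith₀, hΦ, hspan⟩ := h6 q M hsy M₀ hnd V σ hirr hfaith
  obtain ⟨W₀, hW₀, hW₀'⟩ := hlift V₀ σ₀ hirr₀ hfaith₀
  -- the normal subgroup
  let N : Subgroup R := R₁.subgroupOf R
  let g' : R := ⟨g, hg⟩
  have hN : N.Normal := ⟨fun n hn x => by
    rw [Subgroup.mem_subgroupOf] at hn ⊢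
    exact hnorm x x.2 n hn⟩
  have hgN : g' ∉ N := by
    intro h
    exact hgn (Subgroup.mem_subgroupOf.mp h)
  obtain ⟨hcos, hdiv, hgq⟩ := index_prime N g' q hN hrel hgN
  let emb : N →* R₁.subgroupOf (St φ M₀) :=
    { toFun := fun y => ⟨⟨((y : R) : X), hst y.2⟩, y.2⟩
      map_one' := rfl
      map_mul' := fun _ _ => rfl }
  let w : N →* Module.End ℂ V₀ := W₀.comp emb
  have hin : ∀ (y : N) (m : M₀), φ ((y : R) : X) (m : M) ∈ M₀ := fun y m =>
    ((hst y.2) (m : M)).mp m.2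
  have hw : ∀ (y : N) (m : M₀), w y * σ₀ m = σ₀ ⟨φ ((y : R) : X) m, hin y m⟩ * w y := by
    intro y m
    ext v
    exact hW₀ (emb y) m v
  have hw' : ∀ y : N, (∀ m : M, φ ((y : R) : X) m = m) → w y = 1 := by
    intro y hy
    exact hW₀' (emb y) fun m => Subtype.ext (hy m)
  let c : MulAut N := MulAut.conjNormal g'
  have hc : ∀ (i : ℕ) (y : N), (((c⁻¹ ^ i) y : N) : R) = (g' ^ i)⁻¹ * y * g' ^ i := by
    intro i y
    change ((((MulAut.conjNormal g')⁻¹ ^ i) y : N) : R) = _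
    rw [← map_inv, ← map_pow, MulAut.conjNormal_apply, inv_pow, inv_inv]
  -- values
  have hcj : ∀ (i : ℕ) (m : M₀), cj (Φ : Module.End ℂ V₀ →* Module.End ℂ V) U i (σ₀ m) =
      σ (φ (g ^ i) m) := by
    intro i m
    unfold cj
    change ((U ^ i : (Module.End ℂ V)ˣ) : Module.End ℂ V) * Φ (σ₀ m) *
      (((U ^ i)⁻¹ : (Module.End ℂ V)ˣ) : Module.End ℂ V) = _
    rw [hΦ, hUc]
  have hcjadd : ∀ (i : ℕ) (a b : Module.End ℂ V₀),
      cj (Φ : Module.End ℂ V₀ →* Module.End ℂ V) U i (a + b) =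
      cj (Φ : Module.End ℂ V₀ →* Module.End ℂ V) U i a +
      cj (Φ : Module.End ℂ V₀ →* Module.End ℂ V) U i b := by
    intro i a b
    unfold cj
    change ((U ^ i : (Module.End ℂ V)ˣ) : Module.End ℂ V) * Φ (a + b) *
      (((U ^ i)⁻¹ : (Module.End ℂ V)ˣ) : Module.End ℂ V) =
      ((U ^ i : (Module.End ℂ V)ˣ) : Module.End ℂ V) * Φ a *
      (((U ^ i)⁻¹ : (Module.End ℂ V)ˣ) : Module.End ℂ V) +
      ((U ^ i : (Module.End ℂ V)ˣ) : Module.End ℂ V) * Φ b *
      (((U ^ i)⁻¹ : (Module.End ℂ V)ˣ) : Module.End ℂ V)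
    rw [map_add, mul_add, add_mul]
  have hcjsmul : ∀ (i : ℕ) (t : ℂ) (a : Module.End ℂ V₀),
      cj (Φ : Module.End ℂ V₀ →* Module.End ℂ V) U i (t • a) =
      t • cj (Φ : Module.End ℂ V₀ →* Module.End ℂ V) U i a := by
    intro i t a
    unfold cj
    change ((U ^ i : (Module.End ℂ V)ˣ) : Module.End ℂ V) * Φ (t • a) *
      (((U ^ i)⁻¹ : (Module.End ℂ V)ˣ) : Module.End ℂ V) =
      t • (((U ^ i : (Module.End ℂ V)ˣ) : Module.End ℂ V) * Φ a *
      (((U ^ i)⁻¹ : (Module.End ℂ V)ˣ) : Module.End ℂ V))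
    rw [map_smul, mul_smul_comm, smul_mul_assoc]
  have hcjzero : ∀ (i : ℕ), cj (Φ : Module.End ℂ V₀ →* Module.End ℂ V) U i 0 = 0 := by
    intro i
    have h := hcjsmul i 0 0
    rwa [zero_smul, zero_smul] at h
  have hcom : ∀ i, 0 < i → i < q → ∀ a b : Module.End ℂ V₀,
      Commute ((Φ : Module.End ℂ V₀ →* Module.End ℂ V) a)
        (cj (Φ : Module.End ℂ V₀ →* Module.End ℂ V) U i b) := by
    intro i hi1 hi2 a b
    change Commute (Φ a) (cj (Φ : Module.End ℂ V₀ →* Module.End ℂ V) U i b)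
    have ha := hspan a
    have hb := hspan b
    induction hb using Submodule.span_induction with
    | mem b hb =>
      obtain ⟨n, rfl⟩ := hb
      rw [hcj]
      induction ha using Submodule.span_induction with
      | mem a ha =>
        obtain ⟨m, rfl⟩ := ha
        rw [hΦ]
        have h := hcomm i hi1 hi2 m m.2 n n.2
        unfold Commute SemiconjBy
        rw [← map_mul, ← map_mul, h]
      | zero => rw [map_zero]; exact Commute.zero_left _
      | add x y _ _ hx hy => rw [map_add]; exact hx.add_left hy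
      | smul t x _ hx => rw [map_smul]; exact hx.smul_left t
    | zero => rw [hcjzero]; exact Commute.zero_right _
    | add x y _ _ hx hy => rw [hcjadd]; exact hx.add_right hy
    | smul t x _ hx => rw [hcjsmul]; exact hx.smul_right t
  let gq : N := ⟨g' ^ q, hgq⟩
  have hwinv : ∀ y : N, w y * w y⁻¹ = 1 := by
    intro y
    rw [← map_mul, mul_inv_cancel, map_one]
  have htwist : ∀ b : Module.End ℂ V₀, cj (Φ : Module.End ℂ V₀ →* Module.End ℂ V) U q b =
      Φ (w gq * b * w gq⁻¹) := by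
    intro b
    have hb := hspan b
    induction hb using Submodule.span_induction with
    | mem b hb =>
      obtain ⟨n, rfl⟩ := hb
      rw [hcj, hw, mul_assoc, hwinv, mul_one, hΦ]
      rfl
    | zero => rw [hcjzero, mul_zero, zero_mul, map_zero]
    | add x y _ _ hx hy => rw [hcjadd, hx, hy, mul_add, add_mul, map_add]
    | smul t x _ hx => rw [hcjsmul, hx, mul_smul_comm, smul_mul_assoc, map_smul]
  have htw : ∀ y : N, cj (Φ : Module.End ℂ V₀ →* Module.End ℂ V) U q (w ((c⁻¹ ^ q) y)) =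
      (Φ : Module.End ℂ V₀ →* Module.End ℂ V) (w y) := by
    intro y
    rw [htwist]
    change Φ _ = Φ (w y)
    congr 1
    rw [← map_mul, ← map_mul]
    congr 1
    apply Subtype.ext
    change g' ^ q * (((c⁻¹ ^ q) y : N) : R) * (g' ^ q)⁻¹ = y
    rw [hc]
    group
  obtain ⟨W₁, hW1, hW2, hW3⟩ := exists_prod (Φ : Module.End ℂ V₀ →* Module.End ℂ V) U c w q
    hq.pos hcom htw
  -- `W₁ y` implements `φ y`
  have himp : ∀ (y : N) (m : M), W₁ y * σ m = σ (φ ((y : R) : X) m) * W₁ y := by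
    intro y
    let H : Subgroup M :=
      { carrier := {m | W₁ y * σ m = σ (φ ((y : R) : X) m) * W₁ y}
        mul_mem' := by
          intro a b ha hb
          rw [Set.mem_ofPred_eq] at ha hb ⊢
          rw [map_mul, map_mul, map_mul, ← mul_assoc, ha, mul_assoc, hb, mul_assoc]
        one_mem' := by
          rw [Set.mem_ofPred_eq, map_one, map_one, map_one, mul_one, one_mul]
        inv_mem' := by
          intro a ha
          rw [Set.mem_ofPred_eq] at ha ⊢
          have h1 : σ a * σ a⁻¹ = 1 := by rw [← map_mul, mul_inv_cancel, map_one]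
          have h2 : σ (φ ((y : R) : X) a⁻¹) * σ (φ ((y : R) : X) a) = 1 := by
            rw [← map_mul, ← map_mul, inv_mul_cancel, map_one, map_one]
          calc W₁ y * σ a⁻¹ = (σ (φ ((y : R) : X) a⁻¹) * σ (φ ((y : R) : X) a)) * W₁ y * σ a⁻¹ := by
                rw [h2, one_mul]
            _ = σ (φ ((y : R) : X) a⁻¹) * (W₁ y * σ a) * σ a⁻¹ := by rw [ha]; simp only [mul_assoc]
            _ = σ (φ ((y : R) : X) a⁻¹) * W₁ y * (σ a * σ a⁻¹) := by simp only [mul_assoc]
            _ = _ := by rw [h1, mul_one] }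
    have hmem : ∀ i : ℕ, M₀.map (φ (g ^ i)).toMonoidHom ≤ H := by
      intro i x hx
      obtain ⟨m, hm, rfl⟩ := hx
      -- reduce to `i < q`
      have hi : g ^ i = g ^ (i % q) * (g ^ q) ^ (i / q) := by
        rw [← pow_mul, ← pow_add, Nat.mod_add_div]
      have hgqR : g ^ q ∈ R₁ := hgq
      have hm' : φ ((g ^ q) ^ (i / q)) m ∈ M₀ :=
        ((hst (R₁.pow_mem hgqR (i / q))) m).mp hm
      have hjq : i % q < q := Nat.mod_lt _ hq.pos
      change W₁ y * σ (φ (g ^ i) m) = σ (φ ((y : R) : X) (φ (g ^ i) m)) * W₁ y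
      have e1 : φ (g ^ i) m = φ (g ^ (i % q)) (φ ((g ^ q) ^ (i / q)) m) := by
        rw [hi, map_mul, MulAut.mul_apply]
      rw [e1]
      generalize i % q = j at hjq
      generalize φ ((g ^ q) ^ (i / q)) m = x at hm'
      have h1 := hW2 j hjq (σ₀ ⟨x, hm'⟩) (σ₀ ⟨φ ((((c⁻¹ ^ j) y : N) : R) : X) x, hin _ ⟨x, hm'⟩⟩) y
        (hw _ _)
      rw [hcj, hcj] at h1
      change W₁ y * σ (φ (g ^ j) x) = σ (φ (g ^ j) (φ ((((c⁻¹ ^ j) y : N) : R) : X) x)) * W₁ y at h1
      rw [h1]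
      congr 2
      rw [← MulAut.mul_apply, ← MulAut.mul_apply, ← map_mul, ← map_mul]
      congr 2
      rw [hc]
      change g ^ j * ((g ^ j)⁻¹ * ((y : R) : X) * g ^ j) = ((y : R) : X) * g ^ j
      group
    intro m
    have h : m ∈ (⨆ i : ℕ, M₀.map (φ (g ^ i)).toMonoidHom) := by
      rw [hsup]
      exact Subgroup.mem_top m
    exact (iSup_le hmem) h
  -- the scalar
  haveI hnt : Nontrivial V := Pool.Agent.H254R3.IN.irr_nontrivial σ hirr
  have hW₁inv : ∀ y : N, W₁ y * W₁ y⁻¹ = 1 := by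
    intro y
    rw [← map_mul, mul_inv_cancel, map_one]
  have hW₁inv' : ∀ y : N, W₁ y⁻¹ * W₁ y = 1 := by
    intro y
    rw [← map_mul, inv_mul_cancel, map_one]
  obtain ⟨s, hs⟩ := Pool.Agent.H254R3.IN.schur σ hirr
    (((U ^ q : (Module.End ℂ V)ˣ) : Module.End ℂ V) * W₁ gq⁻¹) (by
      intro m v
      have h1 : ((U ^ q : (Module.End ℂ V)ˣ) : Module.End ℂ V) * W₁ gq⁻¹ * σ m =
          σ m * (((U ^ q : (Module.End ℂ V)ˣ) : Module.End ℂ V) * W₁ gq⁻¹) := by
        rw [mul_assoc, himp, ← mul_assoc, hUi, mul_assoc]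
        congr 2
        rw [← MulAut.mul_apply, ← map_mul]
        have h2 : g ^ q * (((gq⁻¹ : N) : R) : X) = 1 := by
          change g ^ q * (g ^ q)⁻¹ = 1
          exact mul_inv_cancel _
        rw [h2, map_one, MulAut.one_apply]
      exact congrArg (fun S : V →ₗ[ℂ] V => S v) h1)
  have hs1 : ((U ^ q : (Module.End ℂ V)ˣ) : Module.End ℂ V) = s • W₁ gq := by
    calc ((U ^ q : (Module.End ℂ V)ˣ) : Module.End ℂ V)
        = ((U ^ q : (Module.End ℂ V)ˣ) : Module.End ℂ V) * (W₁ gq⁻¹ * W₁ gq) := by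
          rw [hW₁inv', mul_one]
      _ = (((U ^ q : (Module.End ℂ V)ˣ) : Module.End ℂ V) * W₁ gq⁻¹) * W₁ gq := by
          rw [mul_assoc]
      _ = (s • (LinearMap.id : V →ₗ[ℂ] V)) * W₁ gq := by rw [hs]
      _ = s • W₁ gq := by
          rw [smul_mul_assoc]
          rfl
  have hs0 : s ≠ 0 := by
    intro h0
    rw [h0, zero_smul] at hs1
    exact (U ^ q).ne_zero hs1
  obtain ⟨d, hd⟩ := IsAlgClosed.exists_pow_nat_eq s hq.pos
  have hd0 : d ≠ 0 := by
    intro h0
    rw [h0, zero_pow hq.pos.ne'] at hd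
    exact hs0 hd.symm
  let D : (Module.End ℂ V)ˣ := Units.map (algebraMap ℂ (Module.End ℂ V)).toMonoidHom (Units.mk0 d hd0)
  have hDval : (D : Module.End ℂ V) = algebraMap ℂ (Module.End ℂ V) d := rfl
  have hDc : ∀ Y : (Module.End ℂ V)ˣ, Commute D Y := by
    intro Y
    unfold Commute SemiconjBy
    apply Units.ext
    rw [Units.val_mul, Units.val_mul, hDval]
    exact Algebra.commutes d (Y : Module.End ℂ V)
  let f : N →* (Module.End ℂ V)ˣ := W₁.toHomUnits
  have hfval : ∀ y : N, ((f y : (Module.End ℂ V)ˣ) : Module.End ℂ V) = W₁ y := fun y =>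
    MonoidHom.coe_toHomUnits W₁ y
  let T : (Module.End ℂ V)ˣ := D⁻¹ * U
  have hfU : ∀ n : N, U * f n * U⁻¹ = f (c n) := by
    intro n
    apply Units.ext
    rw [Units.val_mul, Units.val_mul, hfval, hfval]
    exact hW1 n
  have hT : ∀ n : N, T * f n * T⁻¹ = f ⟨g' * n * g'⁻¹, hN.conj_mem n n.2 g'⟩ := by
    intro n
    have h1 : f ⟨g' * n * g'⁻¹, hN.conj_mem n n.2 g'⟩ = f (c n) := rfl
    rw [h1, ← hfU n]
    change D⁻¹ * U * f n * (D⁻¹ * U)⁻¹ = U * f n * U⁻¹
    have h2 := (hDc (U * f n * U⁻¹))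
    have h3 : D⁻¹ * U * f n * (D⁻¹ * U)⁻¹ = D⁻¹ * ((U * f n * U⁻¹) * D) := by
      group
    rw [h3, ← h2.eq]
    group
  have hTq : T ^ q = f ⟨g' ^ q, hgq⟩ := by
    have h1 : T ^ q = (D ^ q)⁻¹ * U ^ q := by
      change (D⁻¹ * U) ^ q = _
      rw [((hDc U).inv_left).mul_pow, inv_pow]
    have h2 : U ^ q = D ^ q * f gq := by
      apply Units.ext
      rw [hs1, Units.val_mul, Units.val_pow_eq_pow_val, hDval, hfval, ← map_pow, hd,
        Algebra.smul_def]
    rw [h1, h2, inv_mul_cancel_left]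
  obtain ⟨F, hF1, hF2⟩ := ext_cyclic N g' q hN (fun r => by
    obtain ⟨i, _, n, hn, h⟩ := hcos r
    exact ⟨i, n, hn, h⟩) hdiv hgq f T hT hTq
  let W : Representation ℂ R V := (Units.coeHom (Module.End ℂ V)).comp F
  have hWN : ∀ n : N, W (n : R) = W₁ n := by
    intro n
    change ((F n : (Module.End ℂ V)ˣ) : Module.End ℂ V) = W₁ n
    rw [hF1, hfval]
  have hWmul : ∀ r s : R, (∀ m : M, W r * σ m = σ (φ (r : X) m) * W r) →
      (∀ m : M, W s * σ m = σ (φ (s : X) m) * W s) →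
      ∀ m : M, W (r * s) * σ m = σ (φ ((r * s : R) : X) m) * W (r * s) := by
    intro r s hr hs m
    rw [map_mul, mul_assoc, hs, ← mul_assoc, hr, mul_assoc]
    congr 2
    rw [← MulAut.mul_apply, ← map_mul]
    rfl
  have hWg : ∀ m : M, W g' * σ m = σ (φ (g' : X) m) * W g' := by
    intro m
    change ((F g' : (Module.End ℂ V)ˣ) : Module.End ℂ V) * σ m =
      σ (φ g m) * ((F g' : (Module.End ℂ V)ˣ) : Module.End ℂ V)
    rw [hF2]
    change ((D⁻¹ * U : (Module.End ℂ V)ˣ) : Module.End ℂ V) * σ m =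
      σ (φ g m) * ((D⁻¹ * U : (Module.End ℂ V)ˣ) : Module.End ℂ V)
    have h1 : (D⁻¹ * U : (Module.End ℂ V)ˣ) = U * D⁻¹ := (hDc U).inv_left.eq
    have h2 : ((D⁻¹ : (Module.End ℂ V)ˣ) : Module.End ℂ V) * σ m =
        σ m * ((D⁻¹ : (Module.End ℂ V)ˣ) : Module.End ℂ V) := by
      have h3 : (D : Module.End ℂ V) * σ m = σ m * (D : Module.End ℂ V) := by
        rw [hDval]
        exact Algebra.commutes d (σ m)
      exact (Commute.units_inv_left h3).eq
    rw [h1, Units.val_mul, mul_assoc, h2, ← mul_assoc, hU, mul_assoc]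
  have hWgi : ∀ (i : ℕ) (m : M), W (g' ^ i) * σ m = σ (φ ((g' ^ i : R) : X) m) * W (g' ^ i) := by
    intro i
    induction i with
    | zero =>
      intro m
      simp
    | succ i ih =>
      rw [pow_succ']
      exact hWmul _ _ hWg ih
  have hWall : ∀ (r : R) (m : M), W r * σ m = σ (φ (r : X) m) * W r := by
    intro r
    obtain ⟨i, _, n, hn, h⟩ := hcos r
    rw [h]
    refine hWmul _ _ (hWgi i) ?_
    intro m
    have h1 := himp ⟨n, hn⟩ m
    have h2 := hWN ⟨n, hn⟩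
    change W n = W₁ ⟨n, hn⟩ at h2
    rw [h2]
    exact h1
  refine ⟨W, ?_, ?_⟩
  · intro r m v
    exact congrArg (fun S : V →ₗ[ℂ] V => S v) (hWall r m)
  · intro r hr
    obtain ⟨i, hiq, n, hn, h⟩ := hcos r
    have hnR : (n : X) ∈ R₁ := hn
    rcases Nat.eq_zero_or_pos i with hi | hi
    · subst hi
      have h1 : r = n := by rw [h]; simp
      subst h1
      have h2 := hWN ⟨r, hn⟩
      change W r = W₁ ⟨r, hn⟩ at h2
      rw [h2]
      apply hW3
      intro j
      apply hw'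
      intro m
      rw [hc]
      change φ ((g ^ j)⁻¹ * (r : X) * g ^ j) m = m
      rw [map_mul, map_mul, MulAut.mul_apply, MulAut.mul_apply, hr, ← MulAut.mul_apply, ← map_mul,
        inv_mul_cancel, map_one, MulAut.one_apply]
    · exfalso
      apply hne
      apply le_antisymm hnd.le
      intro a ha
      apply hnd.nd a ha
      intro b hb
      -- `b = φ (g ^ i) (φ n b)`
      have h1 : b = φ (g ^ i) (φ (n : X) b) := by
        have h2 := hr b
        rw [h] at h2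
        change φ (g ^ i * (n : X)) b = b at h2
        rw [map_mul, MulAut.mul_apply] at h2
        exact h2.symm
      have h3 : φ (n : X) b ∈ M₀ := ((hst hnR) b).mp hb
      have h4 := hcomm i hi hiq a ha (φ (n : X) b) h3
      rw [← h1] at h4
      exact h4

end Pool.Agent.K3h25.IN
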